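import Mathlib

/-!
# Mastersymmetries `y^n` of the dispersionless potential BKP equation
-/

namespace Pool.Agent.Results.MP_0dcd56_mp.Mastersymmetries

open PowerSeries

universe u

/-- Nonlocal differential expressions in the unknown `w` and the independent variables
`x`, `y`: generated by `w`, `x`, `y` and rational constants under sum, product, `∂_x`, `∂_y`
and the formal inverse `ix = ∂_x^{-1}`. -/
inductive NExpr : Type
  | w : NExpr
  | x : NExpr
  | y : NExpr
  | const (q : ℚ) : NExpr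
  | add (f g : NExpr) : NExpr
  | mul (f g : NExpr) : NExpr
  | dx (f : NExpr) : NExpr
  | dy (f : NExpr) : NExpr
  | ix (f : NExpr) : NExpr

namespace NExpr

/-- The Fréchet derivative `f'[g] = (d/dε) f(w + ε g)` at `ε = 0`. -/
def frechet : NExpr → NExpr → NExpr
  | w, g => g
  | x, _ => const 0
  | y, _ => const 0
  | const _, _ => const 0
  | add f₁ f₂, g => add (frechet f₁ g) (frechet f₂ g)
  | mul f₁ f₂, g => add (mul (frechet f₁ g) f₂) (mul f₁ (frechet f₂ g))
  | dx f, g => dx (frechet f g)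
  | dy f, g => dy (frechet f g)
  | ix f, g => ix (frechet f g)

/-- `V = 15 w_x w_y - 15 w_x^3 + 5 ∂_x^{-1} w_yy`. -/
def V : NExpr :=
  add (add (mul (const 15) (mul (dx w) (dy w)))
    (mul (const (-15)) (mul (dx w) (mul (dx w) (dx w)))))
    (mul (const 5) (ix (dy (dy w))))

/-- The commutator operator `V_{[,]} f = V' f - f' V`. -/
def comm (f : NExpr) : NExpr := add (frechet V f) (mul (const (-1)) (frechet f V))

/-- The expression `y^n`. -/
def yPow : ℕ → NExpr
  | 0 => const 1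
  | n + 1 => mul y (yPow n)

end NExpr

/-- A calculus in which nonlocal differential expressions can be evaluated: a commutative
`ℚ`-algebra `R` with commuting derivations `Dx`, `Dy`, independent variables `X`, `Y`, a linear
right inverse `J` of `Dx` with `J (X^a Y^b) = X^(a+1) Y^b / (a+1)`, and an ideal `N` (the
expressions depending on the unknown, each term containing at least one factor `w`) stable under
`Dx`, `Dy`, `J`, on which `J` is the two-sided inverse of `Dx`. -/
structure Calculus (R : Type u) [CommRing R] [Algebra ℚ R] where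
  Dx : Derivation ℚ R R
  Dy : Derivation ℚ R R
  Dx_Dy : ∀ f, Dx (Dy f) = Dy (Dx f)
  X : R
  Y : R
  Dx_X : Dx X = 1
  Dx_Y : Dx Y = 0
  Dy_X : Dy X = 0
  Dy_Y : Dy Y = 1
  J : R →ₗ[ℚ] R
  Dx_J : ∀ f, Dx (J f) = f
  J_mono : ∀ a b : ℕ, J (X ^ a * Y ^ b) = ((a : ℚ) + 1)⁻¹ • (X ^ (a + 1) * Y ^ b)
  N : Ideal R
  Dx_mem : ∀ f ∈ N, Dx f ∈ N
  Dy_mem : ∀ f ∈ N, Dy f ∈ N
  J_mem : ∀ f ∈ N, J f ∈ N
  J_Dx : ∀ f ∈ N, J (Dx f) = f

namespace Calculus

variable {R : Type u} [CommRing R] [Algebra ℚ R]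

/-- The value of an expression at `w`. -/
noncomputable def eval (C : Calculus R) (w : R) : NExpr → R
  | .w => w
  | .x => C.X
  | .y => C.Y
  | .const q => algebraMap ℚ R q
  | .add f g => eval C w f + eval C w g
  | .mul f g => eval C w f * eval C w g
  | .dx f => C.Dx (eval C w f)
  | .dy f => C.Dy (eval C w f)
  | .ix f => C.J (eval C w f)

end Calculus

/-! ### Coefficientwise operators on power series -/

section cw

variable {R : Type u} [CommRing R] [Algebra ℚ R]

/-- Coefficientwise application of a linear map. -/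
noncomputable def cwL (L : R →ₗ[ℚ] R) : R⟦X⟧ →ₗ[ℚ] R⟦X⟧ where
  toFun f := PowerSeries.mk fun n => L (coeff n f)
  map_add' f g := by ext n; simp
  map_smul' c f := by
    ext n
    simp only [coeff_mk, RingHom.id_apply]
    rw [PowerSeries.coeff_smul, PowerSeries.coeff_smul]
    simp

@[simp] lemma coeff_cwL (L : R →ₗ[ℚ] R) (f : R⟦X⟧) (n : ℕ) :
    coeff n (cwL L f) = L (coeff n f) := by
  simp [cwL]

/-- Coefficientwise application of a derivation. -/
noncomputable def cwD (D : Derivation ℚ R R) : Derivation ℚ R⟦X⟧ R⟦X⟧ :=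
  Derivation.mk' (cwL (D : R →ₗ[ℚ] R)) (by
    intro f g
    ext n
    simp only [coeff_cwL, coeff_mul, map_sum, smul_eq_mul, map_add, Derivation.coeFn_coe,
      Derivation.leibniz, ← Finset.sum_add_distrib]
    rw [Finset.sum_add_distrib, Finset.sum_add_distrib]
    congr 1
    rw [← Finset.Nat.sum_antidiagonal_swap]
    rfl)

@[simp] lemma coeff_cwD (D : Derivation ℚ R R) (f : R⟦X⟧) (n : ℕ) :
    coeff n (cwD D f) = D (coeff n f) := by
  change coeff n (cwL (D : R →ₗ[ℚ] R) f) = _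
  simp

end cw


/-! ### Algebraic identities in a ring with derivations -/

section alg

variable {A : Type u} [CommRing A] [Algebra ℚ A]

lemma der_ofNat (D : Derivation ℚ A A) (n : ℕ) [n.AtLeastTwo] :
    D (ofNat(n) : A) = 0 := by
  have h := D.map_natCast n
  rwa [← Nat.cast_ofNat (R := A)] 

/-- `s P_y = a P_x + 3 u_x s P` with `a = 3 (P^2 + u s)`. -/
lemma alg_P (dx dy : Derivation ℚ A A) (s U S P : A) (hxs : dx s = 0) (hys : dy s = 0)
    (hc : dx (dy S) = dy (dx S)) (hx : dx S = s * P) (hy : dy S = P ^ 3 + 3 * U * s * P) :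
    s * dy P = 3 * (P ^ 2 + U * s) * dx P + 3 * dx U * s * P := by
  rw [hx, hy] at hc
  simp only [map_add, Derivation.leibniz, Derivation.leibniz_pow, smul_eq_mul, nsmul_eq_mul,
    hxs, hys, der_ofNat, mul_zero, zero_add, add_zero, Nat.cast_ofNat] at hc
  linear_combination -hc


/-- The time derivative of the phase satisfies the linearised equation. -/
lemma alg_A (dx dy : Derivation ℚ A A) (s U W c P δU : A) (hxs : dx s = 0) (hys : dy s = 0)
    (hP : s * dy P = 3 * (P ^ 2 + U * s) * dx P + 3 * dx U * s * P)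
    (h3c : 3 * c = 15 * U ^ 2 + 5 * W)
    (hxW : dx W = dy U)
    (hδ : δU = 15 * (dx U * W + U * dy U) - 45 * U ^ 2 * dx U + 5 * dy W) :
    s * dy (P ^ 5 + 5 * U * s * P ^ 3 + c * s ^ 2 * P - 1) * 9 =
      3 * (P ^ 2 + U * s) * dx (P ^ 5 + 5 * U * s * P ^ 3 + c * s ^ 2 * P - 1) * 9
        + 3 * s ^ 3 * δU * P := by
  have hxc : 3 * dx c = 30 * U * dx U + 5 * dy U := by
    have := congrArg dx h3c
    simp only [map_add, Derivation.leibniz, Derivation.leibniz_pow, smul_eq_mul, nsmul_eq_mul,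
      der_ofNat, mul_zero, add_zero, Nat.cast_ofNat, hxW] at this
    linear_combination this
  have hyc : 3 * dy c = 30 * U * dy U + 5 * dy W := by
    have := congrArg dy h3c
    simp only [map_add, Derivation.leibniz, Derivation.leibniz_pow, smul_eq_mul, nsmul_eq_mul,
      der_ofNat, mul_zero, add_zero, Nat.cast_ofNat] at this
    linear_combination this
  simp only [map_add, map_sub, Derivation.leibniz, Derivation.leibniz_pow, smul_eq_mul,
    nsmul_eq_mul, hxs, hys, der_ofNat, mul_zero, zero_add, add_zero, Nat.cast_ofNat,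
    Derivation.map_one_eq_zero, sub_zero]
  linear_combination (9 * (5 * P ^ 4 + 15 * U * s * P ^ 2 + c * s ^ 2)) * hP
    + (-9 * s ^ 2 * P ^ 3 - 9 * s ^ 3 * P * U) * hxc + (3 * s ^ 3 * P) * hyc
    + (9 * s ^ 3 * P * dx U) * h3c - (3 * s ^ 3 * P) * hδ


/-- Differentiating the phase in the spectral parameter: `s Q_y = a Q_x` for `Q = 3 S - 2 s S'`. -/
lemma alg_Q (dx dy ds : Derivation ℚ A A) (s U S P : A) (hxs : dx s = 0) (hys : dy s = 0)
    (hss : ds s = 1) (hsU : ds U = 0)
    (hcx : dx (ds S) = ds (dx S)) (hcy : dy (ds S) = ds (dy S))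
    (hx : dx S = s * P) (hy : dy S = P ^ 3 + 3 * U * s * P) :
    s * dy (3 * S - 2 * s * ds S) = 3 * (P ^ 2 + U * s) * dx (3 * S - 2 * s * ds S) ∧
    dx (3 * S - 2 * s * ds S) = s * P - 2 * s ^ 2 * ds P := by
  rw [hx] at hcx
  rw [hy] at hcy
  simp only [map_add, Derivation.leibniz, Derivation.leibniz_pow, smul_eq_mul, nsmul_eq_mul,
    hss, hsU, der_ofNat, mul_zero, add_zero, mul_one, Nat.cast_ofNat] at hcx hcy
  simp only [map_sub, Derivation.leibniz, smul_eq_mul, hxs, hys, der_ofNat, mul_zero,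
    add_zero, hx, hy, hcx, hcy]
  constructor <;> ring

/-- Time derivative of `Q`. -/
lemma alg_Qt (dx dt ds : Derivation ℚ A A) (s U c S P Q : A) 
    (hts : dt s = 0) (hss : ds s = 1) (hsU : ds U = 0) (hsc : ds c = 0)
    (hct : dt (ds S) = ds (dt S))
    (hQ : Q = 3 * S - 2 * s * ds S)
    (hQx : dx Q = s * P - 2 * s ^ 2 * ds P)
    (ht : s * dt S = 9 * (P ^ 5 + 5 * U * s * P ^ 3 + c * s ^ 2 * P - 1)) :
    s ^ 2 * dt Q = 9 * (5 * P ^ 4 + 15 * U * s * P ^ 2 + c * s ^ 2) * dx Q - 45 * s := by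
  have h := congrArg ds ht
  simp only [map_add, map_sub, Derivation.leibniz, Derivation.leibniz_pow, smul_eq_mul,
    nsmul_eq_mul, hss, hsU, hsc, der_ofNat, mul_zero, add_zero, mul_one,
    Nat.cast_ofNat, Derivation.map_one_eq_zero, sub_zero] at h
  rw [hQx, hQ]
  simp only [map_sub, Derivation.leibniz, smul_eq_mul, hts, der_ofNat, mul_zero, add_zero, hct]
  linear_combination 5 * s * ht - 2 * s ^ 2 * h

/-- The function `g = Q^m Q_x` satisfies `s g_y = (a g)_x`. -/
lemma alg_g (dx dy : Derivation ℚ A A) (s a Q : A) (m : ℕ) (hxs : dx s = 0)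
    (hc : dx (dy Q) = dy (dx Q)) (hy : s * dy Q = a * dx Q) :
    s * dy (Q ^ m * dx Q) = dx (a * (Q ^ m * dx Q)) := by
  have h : a * (Q ^ m * dx Q) = Q ^ m * (s * dy Q) := by rw [hy]; ring
  rw [h]
  simp only [Derivation.leibniz, Derivation.leibniz_pow, smul_eq_mul, nsmul_eq_mul, hxs,
    mul_zero, add_zero, hc]
  ring

/-- Time derivative of `g = Q^m Q_x`. -/
lemma alg_gt (dx dt : Derivation ℚ A A) (s b Q : A) (m : ℕ) (hxs : dx s = 0)
    (hc : dx (dt Q) = dt (dx Q)) (hQt : s ^ 2 * dt Q = b * dx Q - 45 * s) :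
    s ^ 2 * dt (Q ^ (m + 1) * dx Q) = dx (b * (Q ^ (m + 1) * dx Q)) 
      - 45 * (m + 1) * s * (Q ^ m * dx Q) := by
  have h : b * (Q ^ (m + 1) * dx Q) = Q ^ (m + 1) * (s ^ 2 * dt Q) + 45 * s * Q ^ (m + 1) := by
    rw [hQt]; ring
  rw [h]
  simp only [map_add, Derivation.leibniz, Derivation.leibniz_pow, smul_eq_mul, nsmul_eq_mul, hxs,
    mul_zero, add_zero, hc, der_ofNat, Nat.add_sub_cancel, Nat.cast_add, Nat.cast_one]
  ring

lemma alg_gt0 (dx dt : Derivation ℚ A A) (s b Q : A) (hxs : dx s = 0)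
    (hc : dx (dt Q) = dt (dx Q)) (hQt : s ^ 2 * dt Q = b * dx Q - 45 * s) :
    s ^ 2 * dt (dx Q) = dx (b * dx Q) := by
  have h : b * dx Q = s ^ 2 * dt Q + 45 * s := by
    rw [hQt]; ring
  rw [h]
  simp only [map_add, Derivation.leibniz, Derivation.leibniz_pow, smul_eq_mul, nsmul_eq_mul, hxs,
    mul_zero, add_zero, hc, der_ofNat]

/-- The linearised operator applied to any `g` with `s g_y = (a g)_x`. -/
lemma alg_lin (dx dy : Derivation ℚ A A) (s U W c P g : A) (hxs : dx s = 0) (hys : dy s = 0)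
    (hP : s * dy P = 3 * (P ^ 2 + U * s) * dx P + 3 * dx U * s * P)
    (h3c : 3 * c = 15 * U ^ 2 + 5 * W)
    (hxW : dx W = dy U)
    (hg : s * dy g = dx (3 * (P ^ 2 + U * s) * g)) :
    dx (9 * (5 * P ^ 4 + 15 * U * s * P ^ 2 + c * s ^ 2) * g) =
      15 * s ^ 2 * (U * dy g + W * dx g) - 45 * s ^ 2 * U ^ 2 * dx g
        + 5 * s * dy (3 * (P ^ 2 + U * s) * g) := by
  have hxc : 3 * dx c = 30 * U * dx U + 5 * dy U := by
    have := congrArg dx h3c
    simp only [map_add, Derivation.leibniz, Derivation.leibniz_pow, smul_eq_mul, nsmul_eq_mul,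
      der_ofNat, mul_zero, add_zero, Nat.cast_ofNat, hxW] at this
    linear_combination this
  simp only [map_add, Derivation.leibniz, Derivation.leibniz_pow, smul_eq_mul, nsmul_eq_mul,
    hxs, hys, der_ofNat, mul_zero, zero_add, add_zero, Nat.cast_ofNat] at hg ⊢
  linear_combination (-30 * P * g) * hP + (3 * s ^ 2 * g) * hxc + (3 * s ^ 2 * dx g) * h3c
    + (-15 * U * s - 15 * (P ^ 2 + U * s)) * hg

end alg


/-! ### The formal phase function -/

section phase

variable {R : Type u} [CommRing R] [Algebra ℚ R]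

/-- Power series with all coefficients in `N`. -/
def coeffIdeal (N : Ideal R) : Ideal R⟦X⟧ where
  carrier := {f | ∀ n, coeff n f ∈ N}
  add_mem' := by
    intro f g hf hg n
    simpa using N.add_mem (hf n) (hg n)
  zero_mem' := by intro n; simp
  smul_mem' := by
    intro c f hf n
    rw [smul_eq_mul, coeff_mul]
    exact N.sum_mem fun p _ => N.mul_mem_left _ (hf _)

omit [Algebra ℚ R] in
lemma mem_coeffIdeal {N : Ideal R} {f : R⟦X⟧} : f ∈ coeffIdeal N ↔ ∀ n, coeff n f ∈ N :=
  Iff.rfl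

/-- Truncations of the momentum series `P = p / k` as a series in `s = k^{-2}`. -/
noncomputable def Tn (K : Calculus R) (U : R) : ℕ → R⟦X⟧
  | 0 => 1
  | n + 1 => Tn K U n + PowerSeries.C ((3 : ℚ)⁻¹ • (K.Dy (K.J (coeff n (Tn K U n)))
      - coeff (n + 1) (Tn K U n ^ 3) - 3 * U * coeff n (Tn K U n))) * X ^ (n + 1)

/-- The momentum series. -/
noncomputable def Pser (K : Calculus R) (U : R) : R⟦X⟧ :=
  PowerSeries.mk fun n => coeff n (Tn K U n)

/-- The phase series. -/
noncomputable def Sser (K : Calculus R) (U : R) : R⟦X⟧ :=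
  PowerSeries.mk fun n => match n with
    | 0 => K.Y
    | n + 1 => K.J (coeff n (Pser K U))

variable (K : Calculus R) (U : R)

lemma Tn_high : ∀ n l, n < l → coeff l (Tn K U n) = 0 := by
  intro n
  induction n with
  | zero =>
    intro l hl
    rw [Tn, coeff_one, if_neg (by omega)]
  | succ n ih =>
    intro l hl
    rw [Tn, map_add, ih l (by omega), zero_add, coeff_C_mul, coeff_X_pow, if_neg (by omega),
      mul_zero]

lemma Tn_succ_low (n l : ℕ) (hl : l ≤ n) :
    coeff l (Tn K U (n + 1)) = coeff l (Tn K U n) := by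
  rw [Tn, map_add, coeff_C_mul, coeff_X_pow, if_neg (by omega), mul_zero, add_zero]

lemma Tn_low (n l : ℕ) (hl : l ≤ n) : coeff l (Tn K U n) = coeff l (Pser K U) := by
  rw [Pser, coeff_mk]
  induction n with
  | zero => 
    have : l = 0 := by omega
    rw [this]
  | succ n ih =>
    rcases Nat.lt_or_ge l (n + 1) with h | h
    · rw [Tn_succ_low K U n l (by omega), ih (by omega)]
    · have : l = n + 1 := by omega
      rw [this]

lemma Tn_split (n : ℕ) : Pser K U = Tn K U n +
    X ^ (n + 1) * PowerSeries.mk (fun j => coeff (j + (n + 1)) (Pser K U)) := by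
  ext l
  rw [map_add, coeff_X_pow_mul']
  split_ifs with h
  · rw [Tn_high K U n l (by omega), zero_add, coeff_mk, Nat.sub_add_cancel h]
  · rw [Tn_low K U n l (by omega), add_zero]

lemma Pser_zero : coeff 0 (Pser K U) = 1 := by
  simp [Pser, Tn]

lemma Pser_succ (n : ℕ) : 3 * coeff (n + 1) (Pser K U) =
    K.Dy (K.J (coeff n (Pser K U))) - coeff (n + 1) (Tn K U n ^ 3) 
      - 3 * U * coeff n (Pser K U) := by
  have h : coeff (n + 1) (Pser K U) = (3 : ℚ)⁻¹ • (K.Dy (K.J (coeff n (Tn K U n)))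
      - coeff (n + 1) (Tn K U n ^ 3) - 3 * U * coeff n (Tn K U n)) := by
    rw [Pser, coeff_mk, Tn, map_add, Tn_high K U n (n + 1) (by omega), zero_add, coeff_C_mul,
      coeff_X_pow, if_pos rfl, mul_one]
  rw [h, Tn_low K U n n le_rfl]
  have h3 : (3 : R) * algebraMap ℚ R (3 : ℚ)⁻¹ = 1 := by
    rw [← map_ofNat (algebraMap ℚ R) 3, ← map_mul]
    norm_num
  rw [Algebra.smul_def, ← mul_assoc, h3, one_mul]

lemma coeff_cube (n : ℕ) : coeff (n + 1) (Pser K U ^ 3) =
    coeff (n + 1) (Tn K U n ^ 3) + 3 * coeff (n + 1) (Pser K U) := by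
  set Z : R⟦X⟧ := PowerSeries.mk (fun j => coeff (j + (n + 1)) (Pser K U)) with hZ
  set T := Tn K U n with hT
  have h : Pser K U ^ 3 = T ^ 3 + X ^ (n + 1) * (3 * T ^ 2 * Z) + 
      X ^ (n + 1) * (X * (X ^ n * (3 * T * Z ^ 2 + X ^ (n + 1) * Z ^ 3))) := by
    rw [Tn_split K U n, ← hZ, ← hT]; ring
  have hT0 : coeff 0 T = 1 := by rw [hT, Tn_low K U n 0 (by omega), Pser_zero]
  rw [h, map_add, map_add, coeff_X_pow_mul', coeff_X_pow_mul', if_pos le_rfl, if_pos le_rfl,
    Nat.sub_self, coeff_zero_X_mul, add_zero]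
  congr 1
  have hZ0 : coeff 0 Z = coeff (n + 1) (Pser K U) := by simp [hZ]
  simp only [coeff_zero_eq_constantCoeff, map_mul, map_pow] at hT0 hZ0 ⊢
  rw [hT0, hZ0, map_ofNat]
  ring

omit [Algebra ℚ R] in
lemma mul_mem_sub {N : Ideal R} {f : R⟦X⟧} (hf : f - 1 ∈ coeffIdeal N) (n : ℕ) :
    f ^ n - 1 ∈ coeffIdeal N := by
  have h := sub_dvd_pow_sub_pow f 1 n
  rw [one_pow] at h
  exact Ideal.mem_of_dvd _ h hf

lemma Tn_sub_one_mem (hU : U ∈ K.N) : ∀ n, Tn K U n - 1 ∈ coeffIdeal K.N := by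
  intro n
  induction n with
  | zero => rw [Tn, sub_self]; exact Submodule.zero_mem _
  | succ n ih =>
    rw [Tn, add_sub_right_comm]
    refine Submodule.add_mem _ ih ?_
    intro l
    rw [coeff_C_mul]
    refine Ideal.mul_mem_right _ _ ?_
    rw [Algebra.smul_def]
    refine Ideal.mul_mem_left _ _ ?_
    refine Submodule.sub_mem _ (Submodule.sub_mem _ ?_ ?_) ?_
    · rcases Nat.eq_zero_or_pos n with h | h
      · subst h
        have : coeff 0 (Tn K U 0) = K.X ^ 0 * K.Y ^ 0 := by simp [Tn]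
        rw [this, K.J_mono]
        simp [K.Dy_X]
      · have h1 : coeff n (Tn K U n) ∈ K.N := by
          have h2 := ih n
          rw [map_sub, coeff_one, if_neg (by omega), sub_zero] at h2
          exact h2
        exact K.Dy_mem _ (K.J_mem _ h1)
    · have h2 := mul_mem_sub ih 3 (n + 1)
      rw [map_sub, coeff_one, if_neg (by omega), sub_zero] at h2
      exact h2
    · exact Ideal.mul_mem_right _ _ (Ideal.mul_mem_left _ _ hU)

lemma Pser_sub_one_mem (hU : U ∈ K.N) : Pser K U - 1 ∈ coeffIdeal K.N := by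
  intro n
  rw [map_sub, ← Tn_low K U n n le_rfl, ← map_sub]
  exact Tn_sub_one_mem K U hU n n

lemma Sser_zero : coeff 0 (Sser K U) = K.Y := by simp [Sser]

lemma Sser_succ (n : ℕ) : coeff (n + 1) (Sser K U) = K.J (coeff n (Pser K U)) := by simp [Sser]

lemma J_one : K.J 1 = K.X := by
  have h := K.J_mono 0 0
  simpa using h

lemma Sser_one : coeff 1 (Sser K U) = K.X := by
  rw [Sser_succ, Pser_zero, J_one]

lemma Sser_mem (hU : U ∈ K.N) (n : ℕ) : coeff (n + 2) (Sser K U) ∈ K.N := by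
  rw [Sser_succ]
  apply K.J_mem
  have h2 := Pser_sub_one_mem K U hU (n + 1)
  rw [map_sub, coeff_one, if_neg (by omega), sub_zero] at h2
  exact h2

lemma Sser_dx : cwD K.Dx (Sser K U) = X * Pser K U := by
  ext n
  rw [coeff_cwD]
  cases n with
  | zero => rw [Sser_zero, K.Dx_Y, coeff_zero_X_mul]
  | succ n => rw [Sser_succ, K.Dx_J, coeff_succ_X_mul]

lemma Sser_dy : cwD K.Dy (Sser K U) =
    Pser K U ^ 3 + 3 * PowerSeries.C U * X * Pser K U := by
  ext n
  rw [coeff_cwD]
  cases n with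
  | zero =>
    rw [Sser_zero, K.Dy_Y]
    have h := Pser_zero K U
    simp only [coeff_zero_eq_constantCoeff, map_mul, map_pow, map_add] at h ⊢
    rw [h]; simp
  | succ n =>
    have h3 : (3 : R⟦X⟧) = PowerSeries.C (3 : R) := (map_ofNat _ 3).symm
    have h : (3 : R⟦X⟧) * PowerSeries.C U * X * Pser K U = 
        X * (PowerSeries.C (3 * U) * Pser K U) := by
      rw [h3, map_mul]; ring
    rw [Sser_succ, map_add, coeff_cube, h, coeff_succ_X_mul, coeff_C_mul, Pser_succ]
    ring

end phase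

/-! ### Uniqueness -/

section uniq

variable {R : Type u} [CommRing R] [Algebra ℚ R]

lemma three_cancel {r : R} (h : 3 * r = 0) : r = 0 := by
  have h3 : algebraMap ℚ R (3 : ℚ)⁻¹ * (3 : R) = 1 := by
    rw [← map_ofNat (algebraMap ℚ R) 3, ← map_mul]
    norm_num
  calc r = algebraMap ℚ R (3 : ℚ)⁻¹ * 3 * r := by rw [h3, one_mul]
    _ = 0 := by rw [mul_assoc, h, mul_zero]

lemma uniq (K : Calculus R) (a Δ : R⟦X⟧) (ha : coeff 0 a = 3) (hΔ : Δ ∈ coeffIdeal K.N)
    (h : X * cwD K.Dy Δ = a * cwD K.Dx Δ) : Δ = 0 := by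
  have key : ∀ n, ∀ l, l < n → coeff l Δ = 0 := by
    intro n
    induction n with
    | zero => intro l hl; omega
    | succ n ih =>
      intro l hl
      rcases Nat.lt_or_ge l n with h1 | h1
      · exact ih l h1
      have hl' : l = n := by omega
      subst hl'
      have hL : coeff l (X * cwD K.Dy Δ) = 0 := by
        cases l with
        | zero => rw [coeff_zero_X_mul]
        | succ l => rw [coeff_succ_X_mul, coeff_cwD, ih l (by omega), map_zero]
      have hR : coeff l (a * cwD K.Dx Δ) = 3 * K.Dx (coeff l Δ) := by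
        rw [coeff_mul, Finset.sum_eq_single (0, l)]
        · rw [ha, coeff_cwD]
        · rintro ⟨i, j⟩ hij hne
          rw [Finset.HasAntidiagonal.mem_antidiagonal] at hij
          have hj : j < l := by
            rcases Nat.eq_zero_or_pos i with hi | hi
            · exfalso; apply hne; simp only [Prod.mk.injEq]; omega
            · simp only at hij; omega
          simp only [coeff_cwD, ih j hj, map_zero, mul_zero]
        · intro hne
          exfalso; apply hne; simp
      have h0 : 3 * K.Dx (coeff l Δ) = 0 := by rw [← hR, ← h, hL]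
      have h1 := three_cancel h0
      rw [← K.J_Dx _ (hΔ l), h1, map_zero]
  ext n
  rw [key (n + 1) n (by omega), map_zero]

end uniq


/-! ### Explicit polynomials -/

section explicit

variable {R : Type u} [CommRing R] [Algebra ℚ R] (K : Calculus R)

/-- Explicit polynomials. -/
def E0 : Submodule ℚ R := Submodule.span ℚ {f | ∃ a b : ℕ, f = K.X ^ a * K.Y ^ b}

/-- Explicit polynomials divisible by `x`. -/
def K0 : Submodule ℚ R := Submodule.span ℚ {f | ∃ a b : ℕ, f = K.X ^ (a + 1) * K.Y ^ b}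

/-- The expressions with `J (Dx f) = f`. -/
def G0 : Submodule ℚ R where
  carrier := {f | K.J (K.Dx f) = f}
  add_mem' := by
    intro f g hf hg
    simp only [Set.mem_ofPred_eq] at hf hg ⊢
    rw [map_add, map_add, hf, hg]
  zero_mem' := by simp
  smul_mem' := by
    intro c f hf
    simp only [Set.mem_ofPred_eq] at hf ⊢
    rw [Derivation.map_smul, map_smul, hf]

lemma N_le_G0 {f : R} (hf : f ∈ K.N) : f ∈ G0 K := K.J_Dx f hf

lemma Dx_mono (a b : ℕ) : K.Dx (K.X ^ (a + 1) * K.Y ^ b) =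
    ((a : ℚ) + 1) • (K.X ^ a * K.Y ^ b) := by
  have h : ∀ t : R, ((a : ℚ) + 1) • t = ((a : R) + 1) * t := by
    intro t
    rw [Algebra.smul_def, map_add, map_natCast, map_one]
  rw [Derivation.leibniz, Derivation.leibniz_pow, Derivation.leibniz_pow, K.Dx_X, K.Dx_Y,
    h, smul_zero, smul_zero, smul_zero, zero_add, Nat.add_sub_cancel]
  simp only [smul_eq_mul, nsmul_eq_mul, mul_one, Nat.cast_add, Nat.cast_one]
  ring

lemma Dy_mono (a b : ℕ) : K.Dy (K.X ^ a * K.Y ^ b) =
    (b : ℚ) • (K.X ^ a * K.Y ^ (b - 1)) := by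
  have h : ∀ t : R, (b : ℚ) • t = (b : R) * t := by
    intro t
    rw [Algebra.smul_def, map_natCast]
  rw [Derivation.leibniz, Derivation.leibniz_pow, Derivation.leibniz_pow, K.Dy_X, K.Dy_Y,
    h, smul_zero, smul_zero, smul_zero, add_zero]
  simp only [smul_eq_mul, nsmul_eq_mul, mul_one]
  ring

lemma K0_le_G0 : K0 K ≤ G0 K := by
  rw [K0, Submodule.span_le]
  rintro f ⟨a, b, rfl⟩
  change K.J (K.Dx _) = _
  rw [Dx_mono, map_smul, K.J_mono, smul_smul, mul_inv_cancel₀, one_smul]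
  positivity

lemma Dy_K0 {f : R} (hf : f ∈ K0 K) : K.Dy f ∈ K0 K := by
  induction hf using Submodule.span_induction with
  | mem f hf =>
    obtain ⟨a, b, rfl⟩ := hf
    rw [Dy_mono]
    exact Submodule.smul_mem _ _ (Submodule.subset_span ⟨a, b - 1, rfl⟩)
  | zero => rw [map_zero]; exact Submodule.zero_mem _
  | add f g _ _ hf hg => rw [map_add]; exact Submodule.add_mem _ hf hg
  | smul c f _ hf => rw [Derivation.map_smul]; exact Submodule.smul_mem _ _ hf

lemma X_mul_E0 {f : R} (hf : f ∈ E0 K) : K.X * f ∈ K0 K := by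
  induction hf using Submodule.span_induction with
  | mem f hf =>
    obtain ⟨a, b, rfl⟩ := hf
    exact Submodule.subset_span ⟨a, b, by ring⟩
  | zero => rw [mul_zero]; exact Submodule.zero_mem _
  | add f g _ _ hf hg => rw [mul_add]; exact Submodule.add_mem _ hf hg
  | smul c f _ hf => rw [mul_smul_comm]; exact Submodule.smul_mem _ _ hf

lemma Y_mul_E0 {f : R} (hf : f ∈ E0 K) : K.Y * f ∈ E0 K := by
  induction hf using Submodule.span_induction with
  | mem f hf =>
    obtain ⟨a, b, rfl⟩ := hf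
    exact Submodule.subset_span ⟨a, b + 1, by ring⟩
  | zero => rw [mul_zero]; exact Submodule.zero_mem _
  | add f g _ _ hf hg => rw [mul_add]; exact Submodule.add_mem _ hf hg
  | smul c f _ hf => rw [mul_smul_comm]; exact Submodule.smul_mem _ _ hf

lemma Y_mul_K0 {f : R} (hf : f ∈ K0 K) : K.Y * f ∈ K0 K := by
  induction hf using Submodule.span_induction with
  | mem f hf =>
    obtain ⟨a, b, rfl⟩ := hf
    exact Submodule.subset_span ⟨a, b + 1, by ring⟩
  | zero => rw [mul_zero]; exact Submodule.zero_mem _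
  | add f g _ _ hf hg => rw [mul_add]; exact Submodule.add_mem _ hf hg
  | smul c f _ hf => rw [mul_smul_comm]; exact Submodule.smul_mem _ _ hf

lemma K0_le_E0 : K0 K ≤ E0 K := by
  rw [K0, Submodule.span_le]
  rintro f ⟨a, b, rfl⟩
  exact Submodule.subset_span ⟨a + 1, b, rfl⟩

/-- The explicit part of `Q`. -/
noncomputable def Q0 : R⟦X⟧ := PowerSeries.C (3 * K.Y) + PowerSeries.C K.X * X

lemma coeff_Q0_pow (m : ℕ) : ∀ i, coeff i (Q0 K ^ m) ∈ E0 K ∧ coeff (i + 1) (Q0 K ^ m) ∈ K0 K := by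
  induction m with
  | zero =>
    intro i
    rw [pow_zero, coeff_one, coeff_one, if_neg (Nat.succ_ne_zero i)]
    refine ⟨?_, Submodule.zero_mem _⟩
    split_ifs
    · exact Submodule.subset_span ⟨0, 0, by simp⟩
    · exact Submodule.zero_mem _
  | succ m ih =>
    have h3 : (3 : R) = (3 : ℚ) • (1 : R) := by
      rw [Algebra.smul_def, mul_one, map_ofNat]
    have hs : ∀ i, coeff (i + 1) (Q0 K ^ (m + 1)) =
        (3 : ℚ) • (K.Y * coeff (i + 1) (Q0 K ^ m)) + K.X * coeff i (Q0 K ^ m) := by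
      intro i
      rw [pow_succ', Q0, add_mul, map_add, coeff_C_mul, mul_assoc (PowerSeries.C K.X),
        coeff_C_mul, coeff_succ_X_mul, h3]
      simp only [smul_mul_assoc, one_mul]
    have h0 : coeff 0 (Q0 K ^ (m + 1)) = (3 : ℚ) • (K.Y * coeff 0 (Q0 K ^ m)) := by
      rw [pow_succ', Q0, add_mul, map_add, coeff_C_mul, mul_assoc (PowerSeries.C K.X),
        coeff_C_mul, coeff_zero_X_mul, h3, mul_zero, add_zero]
      simp only [smul_mul_assoc, one_mul]
    have hK : ∀ i, coeff (i + 1) (Q0 K ^ (m + 1)) ∈ K0 K := by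
      intro i
      rw [hs]
      exact Submodule.add_mem _ (Submodule.smul_mem _ _ (Y_mul_K0 K (ih i).2))
        (X_mul_E0 K (ih i).1)
    intro i
    refine ⟨?_, hK i⟩
    cases i with
    | zero => rw [h0]; exact Submodule.smul_mem _ _ (Y_mul_E0 K (ih 0).1)
    | succ i => exact K0_le_E0 K (hK i)

end explicit


/-! ### The calculus with a time derivation -/

section time

variable {R : Type u} [CommRing R] [Algebra ℚ R] (K : Calculus R) (δ : Derivation ℚ R R) (w : R)

/-- The linearised operator minus the time derivative. -/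
noncomputable def Lop : R →ₗ[ℚ] R :=
  (LinearMap.mulLeft ℚ (15 * K.Dx w)).comp (K.Dy : R →ₗ[ℚ] R)
  + (LinearMap.mulLeft ℚ (15 * K.Dy w - 45 * K.Dx w ^ 2)).comp (K.Dx : R →ₗ[ℚ] R)
  + (5 : ℚ) • (K.J.comp ((K.Dy : R →ₗ[ℚ] R).comp (K.Dy : R →ₗ[ℚ] R)))
  - (δ : R →ₗ[ℚ] R)

lemma Lop_apply (F : R) : Lop K δ w F = 15 * K.Dx w * K.Dy F
    + (15 * K.Dy w - 45 * K.Dx w ^ 2) * K.Dx F + 5 * K.J (K.Dy (K.Dy F)) - δ F := by
  have h5 : (5 : R) = algebraMap ℚ R 5 := (map_ofNat _ 5).symm
  rw [Lop, h5, ← Algebra.smul_def]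
  simp only [LinearMap.sub_apply, LinearMap.add_apply, LinearMap.comp_apply,
    LinearMap.mulLeft_apply, LinearMap.smul_apply, Derivation.coeFn_coe]

/-- Hypotheses: `δ` commutes with the calculus and `δ w = V(w)`. -/
structure IsFlow : Prop where
  dx : ∀ f, δ (K.Dx f) = K.Dx (δ f)
  dy : ∀ f, δ (K.Dy f) = K.Dy (δ f)
  J : ∀ f, δ (K.J f) = K.J (δ f)
  X : δ K.X = 0
  Y : δ K.Y = 0
  N : ∀ f ∈ K.N, δ f ∈ K.N
  hw : w ∈ K.N
  flow : δ w = 15 * (K.Dx w * K.Dy w) + -15 * (K.Dx w * (K.Dx w * K.Dx w))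
    + 5 * K.J (K.Dy (K.Dy w))

/-- The spectral derivative. -/
noncomputable def ds : Derivation ℚ R⟦X⟧ R⟦X⟧ := (PowerSeries.derivative R).restrictScalars ℚ

lemma coeff_ds (f : R⟦X⟧) (n : ℕ) : coeff n (ds f) = coeff (n + 1) f * (n + 1) := by
  change coeff n (PowerSeries.derivative R f) = _
  rw [coeff_derivative]

lemma ds_C (r : R) : ds (PowerSeries.C r) = 0 := by
  change PowerSeries.derivative R (PowerSeries.C r) = 0
  rw [derivative_C]

lemma ds_X : ds (X : R⟦X⟧) = 1 := by
  ext n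
  rw [coeff_ds, coeff_X, coeff_one]
  by_cases h : n = 0
  · subst h; simp
  · rw [if_neg (by omega), if_neg h, zero_mul]

lemma cwD_C (D : Derivation ℚ R R) (r : R) : cwD D (PowerSeries.C r) = PowerSeries.C (D r) := by
  ext n
  rw [coeff_cwD, coeff_C, coeff_C]
  split_ifs
  · rfl
  · exact map_zero _

lemma cwD_X (D : Derivation ℚ R R) : cwD D (X : R⟦X⟧) = 0 := by
  ext n
  rw [coeff_cwD, coeff_X, map_zero]
  split_ifs
  · exact D.map_one_eq_zero
  · exact map_zero _

lemma cwD_comm (D D' : Derivation ℚ R R) (h : ∀ f, D (D' f) = D' (D f)) (f : R⟦X⟧) :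
    cwD D (cwD D' f) = cwD D' (cwD D f) := by
  ext n
  simp only [coeff_cwD, h]

lemma cwD_ds (D : Derivation ℚ R R) (f : R⟦X⟧) : cwD D (ds f) = ds (cwD D f) := by
  ext n
  rw [coeff_cwD, coeff_ds, coeff_ds, coeff_cwD, Derivation.leibniz, map_add,
    D.map_natCast, D.map_one_eq_zero]
  simp only [add_zero, smul_eq_mul]
  ring

lemma cwD_mem {D : Derivation ℚ R R} {N : Ideal R} (h : ∀ f ∈ N, D f ∈ N) {f : R⟦X⟧}
    (hf : f ∈ coeffIdeal N) : cwD D f ∈ coeffIdeal N := by
  intro n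
  rw [coeff_cwD]
  exact h _ (hf n)

lemma ds_mem {N : Ideal R} {f : R⟦X⟧} (hf : f ∈ coeffIdeal N) : ds f ∈ coeffIdeal N := by
  intro n
  rw [coeff_ds]
  exact N.mul_mem_right _ (hf _)

omit [Algebra ℚ R] in
lemma C_mem {N : Ideal R} {r : R} (hr : r ∈ N) : PowerSeries.C r ∈ coeffIdeal N := by
  intro n
  rw [coeff_C]
  split_ifs
  · exact hr
  · exact N.zero_mem

section flow

variable {K δ w}

/-- Shorthand for the coefficient `c` of `B_5`. -/
noncomputable def cc (K : Calculus R) (w : R) : R :=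
  5 * K.Dx w ^ 2 + (5 / 3 : ℚ) • K.Dy w

lemma three_cc (K : Calculus R) (w : R) : 3 * cc K w = 15 * K.Dx w ^ 2 + 5 * K.Dy w := by
  have h : (3 : R) * ((5 / 3 : ℚ) • K.Dy w) = 5 * K.Dy w := by
    rw [mul_smul_comm, ← smul_mul_assoc]
    congr 1
    rw [Algebra.smul_def, ← map_ofNat (algebraMap ℚ R) 3, ← map_mul,
      ← map_ofNat (algebraMap ℚ R) 5]
    norm_num
  rw [cc, mul_add, h]
  ring

lemma three_cc' (K : Calculus R) (w : R) : 3 * PowerSeries.C (cc K w) =
    15 * PowerSeries.C (K.Dx w) ^ 2 + 5 * PowerSeries.C (K.Dy w) := by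
  have h := congrArg (PowerSeries.C : R →+* R⟦X⟧) (three_cc K w)
  simpa only [map_mul, map_add, map_pow, map_ofNat] using h

/-- The phase expression `P^5 + 5 u s P^3 + c s^2 P - 1`. -/
noncomputable def A0 (K : Calculus R) (w : R) : R⟦X⟧ :=
  Pser K (K.Dx w) ^ 5 + 5 * PowerSeries.C (K.Dx w) * X * Pser K (K.Dx w) ^ 3
    + PowerSeries.C (cc K w) * X ^ 2 * Pser K (K.Dx w) - 1

lemma dy_P (K : Calculus R) (w : R) : X * cwD K.Dy (Pser K (K.Dx w)) =
    3 * (Pser K (K.Dx w) ^ 2 + PowerSeries.C (K.Dx w) * X) * cwD K.Dx (Pser K (K.Dx w))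
      + 3 * cwD K.Dx (PowerSeries.C (K.Dx w)) * X * Pser K (K.Dx w) :=
  alg_P (cwD K.Dx) (cwD K.Dy) X (PowerSeries.C (K.Dx w)) (Sser K (K.Dx w)) (Pser K (K.Dx w))
    (cwD_X _) (cwD_X _) (cwD_comm _ _ K.Dx_Dy _) (Sser_dx K _) (Sser_dy K _)

lemma flow_U (h : IsFlow K δ w) : δ (K.Dx w) =
    15 * (K.Dx (K.Dx w) * K.Dy w + K.Dx w * K.Dy (K.Dx w))
      - 45 * K.Dx w ^ 2 * K.Dx (K.Dx w) + 5 * K.Dy (K.Dy w) := by
  rw [h.dx, h.flow]
  have h15 : K.Dx (-15 : R) = 0 := by
    rw [show (-15 : R) = -(15 : R) from rfl, map_neg, der_ofNat, neg_zero]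
  simp only [map_add, Derivation.leibniz, smul_eq_mul, der_ofNat, h15, K.Dx_J, mul_zero, add_zero]
  rw [K.Dx_Dy]
  ring

lemma flow_S (h : IsFlow K δ w) : X * cwD δ (Sser K (K.Dx w)) = 9 * A0 K w := by
  set U := K.Dx w with hU
  have hUN : U ∈ K.N := K.Dx_mem _ h.hw
  set P := Pser K U with hP
  set S := Sser K U with hS
  have hSx : cwD K.Dx S = X * P := Sser_dx K U
  have hSy : cwD K.Dy S = P ^ 3 + 3 * PowerSeries.C U * X * P := Sser_dy K U
  have hP1 : P - 1 ∈ coeffIdeal K.N := Pser_sub_one_mem K U hUN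
  have h1 : cwD K.Dx (X * cwD δ S) = X ^ 2 * cwD δ P := by
    rw [Derivation.leibniz, cwD_X, smul_zero, add_zero, smul_eq_mul,
      ← cwD_comm δ K.Dx h.dx, hSx, Derivation.leibniz, cwD_X, smul_zero, add_zero, smul_eq_mul]
    ring
  have h2 : X * cwD K.Dy (X * cwD δ S) = X ^ 2 * (3 * P ^ 2 * cwD δ P
      + 3 * X * (cwD δ (PowerSeries.C U) * P + PowerSeries.C U * cwD δ P)) := by
    rw [Derivation.leibniz, cwD_X, smul_zero, add_zero, smul_eq_mul,
      ← cwD_comm δ K.Dy h.dy, hSy]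
    simp only [map_add, Derivation.leibniz, Derivation.leibniz_pow, smul_eq_mul, nsmul_eq_mul,
      cwD_X, der_ofNat, mul_zero, zero_add, add_zero, Nat.cast_ofNat]
    ring
  have h3 := alg_A (cwD K.Dx) (cwD K.Dy) X (PowerSeries.C U) (PowerSeries.C (K.Dy w))
    (PowerSeries.C (cc K w)) P (cwD δ (PowerSeries.C U)) (cwD_X _) (cwD_X _) (dy_P K w)
    (three_cc' K w) (by rw [cwD_C, cwD_C, K.Dx_Dy]) (by
      have := congrArg (PowerSeries.C : R →+* R⟦X⟧) (flow_U h)
      rw [cwD_C, cwD_C, cwD_C, cwD_C]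
      simpa only [map_mul, map_add, map_sub, map_pow, map_ofNat] using this)
  have hΔ : X * cwD δ S - 9 * A0 K w = 0 := by
    refine uniq K (3 * (P ^ 2 + PowerSeries.C U * X)) _ ?_ ?_ ?_
    · have h0 := Pser_zero K U
      rw [← hP] at h0
      simp only [coeff_zero_eq_constantCoeff, map_mul, map_pow, map_add, map_ofNat] at h0 ⊢
      rw [h0]
      simp
    · refine Submodule.sub_mem _ (Ideal.mul_mem_left _ _ ?_) (Ideal.mul_mem_left _ _ ?_)
      · intro n
        rw [coeff_cwD]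
        match n with
        | 0 => rw [hS, Sser_zero, h.Y]; exact K.N.zero_mem
        | 1 => rw [hS, Sser_one, h.X]; exact K.N.zero_mem
        | n + 2 => exact h.N _ (Sser_mem K U hUN n)
      · have : A0 K w = (P ^ 5 - 1) + 5 * PowerSeries.C U * X * P ^ 3
            + PowerSeries.C (cc K w) * X ^ 2 * P := by rw [A0]; ring
        rw [this]
        have hcN : cc K w ∈ K.N := by
          rw [cc, Algebra.smul_def]
          exact K.N.add_mem (K.N.mul_mem_left _ (K.N.pow_mem_of_mem hUN 2 (by norm_num)))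
            (K.N.mul_mem_left _ (K.Dy_mem _ h.hw))
        refine Submodule.add_mem _ (Submodule.add_mem _ (mul_mem_sub hP1 5) ?_) ?_
        · exact Ideal.mul_mem_right _ _ (Ideal.mul_mem_right _ _
            (Ideal.mul_mem_left _ _ (C_mem hUN)))
        · exact Ideal.mul_mem_right _ _ (Ideal.mul_mem_right _ _ (C_mem hcN))
    · rw [map_sub, map_sub, mul_sub, mul_sub, h1, h2]
      have h9 : ∀ D : Derivation ℚ R⟦X⟧ R⟦X⟧, D (9 * A0 K w) = D (A0 K w) * 9 := by
        intro D
        rw [Derivation.leibniz, der_ofNat, smul_zero, add_zero, smul_eq_mul, mul_comm]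
      rw [h9, h9]
      change _ - X * (cwD K.Dy (P ^ 5 + 5 * PowerSeries.C U * X * P ^ 3
        + PowerSeries.C (cc K w) * X ^ 2 * P - 1) * 9) = _ - 
        3 * (P ^ 2 + PowerSeries.C U * X) * (cwD K.Dx (P ^ 5 + 5 * PowerSeries.C U * X * P ^ 3
        + PowerSeries.C (cc K w) * X ^ 2 * P - 1) * 9)
      linear_combination -h3
  exact sub_eq_zero.mp hΔ

/-- The Orlov series `Q = M / k^2`. -/
noncomputable def Qser (K : Calculus R) (U : R) : R⟦X⟧ :=
  3 * Sser K U - 2 * X * ds (Sser K U)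

lemma Q_eqs (K : Calculus R) (U : R) :
    X * cwD K.Dy (Qser K U) =
      3 * (Pser K U ^ 2 + PowerSeries.C U * X) * cwD K.Dx (Qser K U) ∧
    cwD K.Dx (Qser K U) = X * Pser K U - 2 * X ^ 2 * ds (Pser K U) :=
  alg_Q (cwD K.Dx) (cwD K.Dy) ds X (PowerSeries.C U) (Sser K U) (Pser K U) (cwD_X _) (cwD_X _)
    ds_X (ds_C _) (cwD_ds _ _) (cwD_ds _ _) (Sser_dx K U) (Sser_dy K U)

lemma flow_Q (h : IsFlow K δ w) : X ^ 2 * cwD δ (Qser K (K.Dx w)) =
    9 * (5 * Pser K (K.Dx w) ^ 4 + 15 * PowerSeries.C (K.Dx w) * X * Pser K (K.Dx w) ^ 2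
      + PowerSeries.C (cc K w) * X ^ 2) * cwD K.Dx (Qser K (K.Dx w)) - 45 * X :=
  alg_Qt (cwD K.Dx) (cwD δ) ds X (PowerSeries.C (K.Dx w)) (PowerSeries.C (cc K w))
    (Sser K (K.Dx w)) (Pser K (K.Dx w)) (Qser K (K.Dx w)) (cwD_X _) ds_X (ds_C _) (ds_C _)
    (cwD_ds _ _) rfl (Q_eqs K (K.Dx w)).2 (flow_S h)

/-- The generating coefficients `T m j = [s^(j+1)] (Q^m Q_x)`. -/
noncomputable def TT (K : Calculus R) (w : R) (m j : ℕ) : R :=
  coeff (j + 1) (Qser K (K.Dx w) ^ m * cwD K.Dx (Qser K (K.Dx w)))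

lemma Q_sub_mem (K : Calculus R) (U : R) (hU : U ∈ K.N) :
    Qser K U - Q0 K ∈ coeffIdeal K.N ∧ cwD K.Dx (Qser K U) - X ∈ coeffIdeal K.N := by
  have hS : Sser K U - (PowerSeries.C K.Y + PowerSeries.C K.X * X) ∈ coeffIdeal K.N := by
    intro n
    rw [map_sub, map_add, coeff_C, coeff_C_mul, coeff_X]
    match n with
    | 0 => rw [Sser_zero]; simp
    | 1 => rw [Sser_one]; simp
    | n + 2 =>
      rw [if_neg (by omega), if_neg (by omega), mul_zero, zero_add, sub_zero]
      exact Sser_mem K U hU n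
  have hP : Pser K U - 1 ∈ coeffIdeal K.N := Pser_sub_one_mem K U hU
  have hdP : ds (Pser K U) ∈ coeffIdeal K.N := by
    have := ds_mem hP
    rwa [map_sub, Derivation.map_one_eq_zero, sub_zero] at this
  have hdS : ds (Sser K U) - PowerSeries.C K.X ∈ coeffIdeal K.N := by
    have := ds_mem hS
    rwa [map_sub, map_add, ds_C, Derivation.leibniz, ds_C, ds_X, smul_zero, add_zero,
      zero_add, smul_eq_mul, mul_one] at this
  constructor
  · have : Qser K U - Q0 K = 3 * (Sser K U - (PowerSeries.C K.Y + PowerSeries.C K.X * X))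
        - 2 * X * (ds (Sser K U) - PowerSeries.C K.X) := by
      rw [Qser, Q0, map_mul, map_ofNat]; ring
    rw [this]
    exact Submodule.sub_mem _ (Ideal.mul_mem_left _ _ hS) (Ideal.mul_mem_left _ _ hdS)
  · have : cwD K.Dx (Qser K U) - X = X * (Pser K U - 1) - 2 * X ^ 2 * ds (Pser K U) := by
      rw [(Q_eqs K U).2]; ring
    rw [this]
    exact Submodule.sub_mem _ (Ideal.mul_mem_left _ _ hP) (Ideal.mul_mem_left _ _ hdP)

lemma good (K : Calculus R) (U : R) (hU : U ∈ K.N) (m j : ℕ) :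
    K.Dy (coeff (j + 2) (3 * (Pser K U ^ 2 + PowerSeries.C U * X)
      * (Qser K U ^ m * cwD K.Dx (Qser K U)))) ∈ G0 K := by
  obtain ⟨hQ, hQx⟩ := Q_sub_mem K U hU
  have hP : Pser K U - 1 ∈ coeffIdeal K.N := Pser_sub_one_mem K U hU
  have ha : (3 * (Pser K U ^ 2 + PowerSeries.C U * X)) - 3 ∈ coeffIdeal K.N := by
    have : (3 * (Pser K U ^ 2 + PowerSeries.C U * X)) - 3 =
      3 * (Pser K U ^ 2 - 1) + 3 * (PowerSeries.C U * X) := by ring
    rw [this]
    exact Submodule.add_mem _ (Ideal.mul_mem_left _ _ (mul_mem_sub hP 2))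
      (Ideal.mul_mem_left _ _ (Ideal.mul_mem_right _ _ (C_mem hU)))
  have hmem : (3 * (Pser K U ^ 2 + PowerSeries.C U * X)
      * (Qser K U ^ m * cwD K.Dx (Qser K U))) - 3 * (Q0 K ^ m * X) ∈ coeffIdeal K.N := by
    rw [← Ideal.Quotient.eq] at hQ hQx ha ⊢
    rw [map_mul, map_mul (Ideal.Quotient.mk _) (Qser K U ^ m), map_pow, hQ, hQx, ha,
      ← map_pow, ← map_mul, ← map_mul]
  have h1 := hmem (j + 2)
  rw [map_sub] at h1
  have h2 : coeff (j + 2) (3 * (Q0 K ^ m * X)) = (3 : ℚ) • coeff (j + 1) (Q0 K ^ m) := by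
    have h3 : (3 : R⟦X⟧) = PowerSeries.C (3 : R) := (map_ofNat _ 3).symm
    rw [h3, coeff_C_mul, coeff_succ_mul_X, Algebra.smul_def, map_ofNat]
  rw [h2] at h1
  have h3 : K.Dy (coeff (j + 2) (3 * (Pser K U ^ 2 + PowerSeries.C U * X)
      * (Qser K U ^ m * cwD K.Dx (Qser K U)))) =
      K.Dy (coeff (j + 2) (3 * (Pser K U ^ 2 + PowerSeries.C U * X)
      * (Qser K U ^ m * cwD K.Dx (Qser K U))) - (3 : ℚ) • coeff (j + 1) (Q0 K ^ m)) +
      K.Dy ((3 : ℚ) • coeff (j + 1) (Q0 K ^ m)) := by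
    rw [← map_add, sub_add_cancel]
  rw [h3]
  refine Submodule.add_mem _ (N_le_G0 K (K.Dy_mem _ h1)) (K0_le_G0 K ?_)
  exact Dy_K0 K (Submodule.smul_mem _ _ (coeff_Q0_pow K m j).2)

/-- The linear part acting on the generating coefficients. -/
lemma lin_TT (h : w ∈ K.N) (m j : ℕ) :
    15 * K.Dx w * K.Dy (TT K w m j)
    + (15 * K.Dy w - 45 * K.Dx w ^ 2) * K.Dx (TT K w m j)
      + 5 * K.J (K.Dy (K.Dy (TT K w m j))) = 
    coeff (j + 3) (cwD K.Dx (9 * (5 * Pser K (K.Dx w) ^ 4
      + 15 * PowerSeries.C (K.Dx w) * X * Pser K (K.Dx w) ^ 2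
      + PowerSeries.C (cc K w) * X ^ 2) * (Qser K (K.Dx w) ^ m
        * cwD K.Dx (Qser K (K.Dx w))))) := by
  set U := K.Dx w with hU
  have hUN : U ∈ K.N := K.Dx_mem _ h
  set P := Pser K U with hP
  set Q := Qser K U with hQ
  set g := Q ^ m * cwD K.Dx Q with hg
  have hgy : X * cwD K.Dy g = cwD K.Dx (3 * (P ^ 2 + PowerSeries.C U * X) * g) :=
    alg_g (cwD K.Dx) (cwD K.Dy) X _ Q m (cwD_X _) (cwD_comm _ _ K.Dx_Dy _) (Q_eqs K U).1
  have hlin := alg_lin (cwD K.Dx) (cwD K.Dy) X (PowerSeries.C U) (PowerSeries.C (K.Dy w))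
    (PowerSeries.C (cc K w)) P g (cwD_X _) (cwD_X _) (dy_P K w) (three_cc' K w)
    (by rw [cwD_C, cwD_C, K.Dx_Dy]) hgy
  rw [hlin]
  have hT : TT K w m j = coeff (j + 1) g := rfl
  have hTy : K.Dy (TT K w m j) =
      K.Dx (coeff (j + 2) (3 * (P ^ 2 + PowerSeries.C U * X) * g)) := by
    rw [hT, ← coeff_cwD, ← coeff_cwD, ← hgy, coeff_succ_X_mul]
  have hTyy : K.J (K.Dy (K.Dy (TT K w m j))) =
      K.Dy (coeff (j + 2) (3 * (P ^ 2 + PowerSeries.C U * X) * g)) := by
    rw [hTy, ← K.Dx_Dy]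
    exact good K U hUN m j
  have e : 15 * X ^ 2 * (PowerSeries.C U * cwD K.Dy g + PowerSeries.C (K.Dy w) * cwD K.Dx g)
      - 45 * X ^ 2 * PowerSeries.C U ^ 2 * cwD K.Dx g
      + 5 * X * cwD K.Dy (3 * (P ^ 2 + PowerSeries.C U * X) * g) =
      X ^ 2 * (PowerSeries.C (15 * U) * cwD K.Dy g) +
      X ^ 2 * (PowerSeries.C (15 * K.Dy w - 45 * U ^ 2) * cwD K.Dx g) +
      X * (PowerSeries.C 5 * cwD K.Dy (3 * (P ^ 2 + PowerSeries.C U * X) * g)) := by
    simp only [map_mul, map_sub, map_pow, map_ofNat]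
    ring
  rw [e, map_add, map_add, coeff_succ_X_mul, coeff_X_pow_mul', coeff_X_pow_mul',
    if_pos (by omega), if_pos (by omega), coeff_C_mul, coeff_C_mul, coeff_C_mul, coeff_cwD,
    coeff_cwD, coeff_cwD, hTyy, show j + 3 - 2 = j + 1 by omega, ← hT]

lemma Lop_TT_zero (h : IsFlow K δ w) (j : ℕ) : Lop K δ w (TT K w 0 j) = 0 := by
  have h1 := lin_TT h.hw 0 j
  have h2 := alg_gt0 (cwD K.Dx) (cwD δ) X _ (Qser K (K.Dx w)) (cwD_X _)
    (cwD_comm K.Dx δ (fun f => (h.dx f).symm) _) (flow_Q h)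
  rw [Lop_apply, h1, pow_zero, one_mul, ← h2, coeff_X_pow_mul', if_pos (by omega),
    show j + 3 - 2 = j + 1 by omega, coeff_cwD, TT, pow_zero, one_mul, sub_self]

lemma Lop_TT_succ (h : IsFlow K δ w) (m j : ℕ) :
    Lop K δ w (TT K w (m + 1) j) = (45 * ((m : ℚ) + 1)) • TT K w m (j + 1) := by
  have h1 := lin_TT h.hw (m + 1) j
  have h2 := alg_gt (cwD K.Dx) (cwD δ) X _ (Qser K (K.Dx w)) m (cwD_X _)
    (cwD_comm K.Dx δ (fun f => (h.dx f).symm) _) (flow_Q h)
  have h3 : cwD K.Dx (9 * (5 * Pser K (K.Dx w) ^ 4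
      + 15 * PowerSeries.C (K.Dx w) * X * Pser K (K.Dx w) ^ 2
      + PowerSeries.C (cc K w) * X ^ 2) * (Qser K (K.Dx w) ^ (m + 1)
        * cwD K.Dx (Qser K (K.Dx w)))) =
      X ^ 2 * cwD δ (Qser K (K.Dx w) ^ (m + 1) * cwD K.Dx (Qser K (K.Dx w)))
      + X * (PowerSeries.C (45 * ((m : R) + 1)) *
        (Qser K (K.Dx w) ^ m * cwD K.Dx (Qser K (K.Dx w)))) := by
    simp only [map_mul, map_add, map_ofNat, map_natCast, map_one]
    linear_combination -h2
  have h4 : (45 * ((m : ℚ) + 1)) • TT K w m (j + 1) = (45 * ((m : R) + 1)) * TT K w m (j + 1) := by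
    rw [Algebra.smul_def, map_mul, map_add, map_ofNat, map_natCast, map_one]
  rw [Lop_apply, h1, h3, map_add, coeff_X_pow_mul', if_pos (by omega),
    show j + 3 - 2 = j + 1 by omega, coeff_cwD, coeff_succ_X_mul, coeff_C_mul, h4]
  simp only [TT]
  ring

lemma Lop_iterate (h : IsFlow K δ w) (m : ℕ) : ∀ j, (Lop K δ w)^[m + 1] (TT K w m j) = 0 := by
  induction m with
  | zero => intro j; exact Lop_TT_zero h j
  | succ m ih =>
    intro j
    rw [Function.iterate_succ_apply, Lop_TT_succ h]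
    have hsm : ∀ (k : ℕ) (c : ℚ) (F : R), (Lop K δ w)^[k] (c • F) = c • (Lop K δ w)^[k] F := by
      intro k c F
      induction k with
      | zero => rfl
      | succ k ihk => rw [Function.iterate_succ_apply', Function.iterate_succ_apply', ihk, map_smul]
    rw [hsm, ih, smul_zero]

lemma TT_zero (K : Calculus R) (w : R) (n : ℕ) : TT K w n 0 = (3 ^ n : ℚ) • K.Y ^ n := by
  have h0 : coeff 0 (Qser K (K.Dx w)) = 3 * K.Y := by
    have h3 : (3 : R⟦X⟧) = PowerSeries.C (3 : R) := (map_ofNat _ 3).symm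
    rw [Qser, map_sub, h3, coeff_C_mul, Sser_zero, mul_comm 2 X, mul_assoc, coeff_zero_X_mul,
      sub_zero]
  have hx : cwD K.Dx (Qser K (K.Dx w)) = X * (Pser K (K.Dx w) - 2 * X * ds (Pser K (K.Dx w))) := by
    rw [(Q_eqs K _).2]; ring
  have hP := Pser_zero K (K.Dx w)
  rw [TT, hx, mul_left_comm, coeff_succ_X_mul]
  simp only [coeff_zero_eq_constantCoeff, map_mul, map_pow, map_sub, map_ofNat] at h0 hP ⊢
  rw [h0, hP, constantCoeff_X, mul_zero, zero_mul, sub_zero, mul_one, mul_pow,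
    Algebra.smul_def, map_pow, map_ofNat]

lemma Lop_Y (h : IsFlow K δ w) (n : ℕ) : (Lop K δ w)^[n + 1] (K.Y ^ n) = 0 := by
  have hsm : ∀ (k : ℕ) (c : ℚ) (F : R), (Lop K δ w)^[k] (c • F) = c • (Lop K δ w)^[k] F := by
    intro k c F
    induction k with
    | zero => rfl
    | succ k ihk => rw [Function.iterate_succ_apply', Function.iterate_succ_apply', ihk, map_smul]
  have h1 := Lop_iterate h n 0
  rw [TT_zero, hsm] at h1
  have h3 : (3 ^ n : ℚ) ≠ 0 := by positivity
  calc (Lop K δ w)^[n + 1] (K.Y ^ n)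
      = (3 ^ n : ℚ)⁻¹ • ((3 ^ n : ℚ) • (Lop K δ w)^[n + 1] (K.Y ^ n)) := by
        rw [smul_smul, inv_mul_cancel₀ h3, one_smul]
    _ = 0 := by rw [h1, smul_zero]

end flow

end time


/-! ### The formal flow through a given `w` -/

section ext

variable {R : Type u} [CommRing R] [Algebra ℚ R]

lemma smul_C (c : ℚ) (r : R) : PowerSeries.C (c • r) = c • PowerSeries.C r := by
  ext n
  rw [PowerSeries.coeff_smul, coeff_C, coeff_C]
  split_ifs
  · rfl
  · rw [smul_zero]

lemma cwL_C (L : R →ₗ[ℚ] R) (r : R) : cwL L (PowerSeries.C r) = PowerSeries.C (L r) := by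
  ext n
  rw [coeff_cwL, coeff_C, coeff_C]
  split_ifs
  · rfl
  · exact map_zero _

/-- The calculus of formal power series in the time variable. -/
noncomputable def timeCalc (K : Calculus R) : Calculus R⟦X⟧ where
  Dx := cwD K.Dx
  Dy := cwD K.Dy
  Dx_Dy := cwD_comm _ _ K.Dx_Dy
  X := PowerSeries.C K.X
  Y := PowerSeries.C K.Y
  Dx_X := by rw [cwD_C, K.Dx_X, map_one]
  Dx_Y := by rw [cwD_C, K.Dx_Y, map_zero]
  Dy_X := by rw [cwD_C, K.Dy_X, map_zero]
  Dy_Y := by rw [cwD_C, K.Dy_Y, map_one]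
  J := cwL K.J
  Dx_J := by
    intro f
    ext n
    rw [coeff_cwD, coeff_cwL, K.Dx_J]
  J_mono := by
    intro a b
    rw [← map_pow, ← map_pow, ← map_mul, cwL_C, K.J_mono, smul_C, map_mul, map_pow, map_pow]
  N := coeffIdeal K.N
  Dx_mem := fun _ hf => cwD_mem K.Dx_mem hf
  Dy_mem := fun _ hf => cwD_mem K.Dy_mem hf
  J_mem := by
    intro f hf n
    rw [coeff_cwL]
    exact K.J_mem _ (hf n)
  J_Dx := by
    intro f hf
    ext n
    rw [coeff_cwL, coeff_cwD, K.J_Dx _ (hf n)]

/-- Derivative of an expression along the flow. -/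
def along (f : NExpr) : NExpr := NExpr.frechet f NExpr.V

variable (K : Calculus R) (w : R)

/-- Time Taylor series of an expression. -/
noncomputable def Eser (f : NExpr) : R⟦X⟧ :=
  PowerSeries.mk fun j => ((j.factorial : ℚ)⁻¹) • K.eval w (along^[j] f)

lemma ds_Eser (f : NExpr) : ds (Eser K w f) = Eser K w (along f) := by
  ext n
  rw [coeff_ds, Eser, Eser, coeff_mk, coeff_mk, Function.iterate_succ_apply, Nat.factorial_succ]
  have h : ∀ t : R, t * ((n : R) + 1) = ((n : ℚ) + 1) • t := by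
    intro t
    rw [Algebra.smul_def, map_add, map_natCast, map_one, mul_comm]
  rw [h, smul_smul]
  congr 1
  have h1 : ((n : ℚ) + 1) ≠ 0 := by positivity
  have h2 : (n.factorial : ℚ) ≠ 0 := by positivity
  push_cast
  field_simp

lemma coeff_zero_Eser (f : NExpr) : coeff 0 (Eser K w f) = K.eval w f := by
  rw [Eser, coeff_mk]
  simp

lemma iter_add (j : ℕ) : ∀ f g, along^[j] (.add f g) = .add (along^[j] f) (along^[j] g) := by
  induction j with
  | zero => intro f g; rfl
  | succ j ih =>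
    intro f g
    rw [Function.iterate_succ_apply]
    change along^[j] (.add (along f) (along g)) = _
    rw [ih]; rfl

lemma iter_dx (j : ℕ) : ∀ f, along^[j] (.dx f) = .dx (along^[j] f) := by
  induction j with
  | zero => intro f; rfl
  | succ j ih =>
    intro f
    rw [Function.iterate_succ_apply]
    change along^[j] (.dx (along f)) = _
    rw [ih]; rfl

lemma iter_dy (j : ℕ) : ∀ f, along^[j] (.dy f) = .dy (along^[j] f) := by
  induction j with
  | zero => intro f; rfl
  | succ j ih =>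
    intro f
    rw [Function.iterate_succ_apply]
    change along^[j] (.dy (along f)) = _
    rw [ih]; rfl

lemma iter_ix (j : ℕ) : ∀ f, along^[j] (.ix f) = .ix (along^[j] f) := by
  induction j with
  | zero => intro f; rfl
  | succ j ih =>
    intro f
    rw [Function.iterate_succ_apply]
    change along^[j] (.ix (along f)) = _
    rw [ih]; rfl

lemma iter_const (j : ℕ) (q : ℚ) : along^[j + 1] (.const q) = .const 0 := by
  induction j generalizing q with
  | zero => rfl
  | succ j ih =>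
    rw [Function.iterate_succ_apply]
    exact ih 0

lemma iter_x (j : ℕ) : along^[j + 1] .x = .const 0 := by
  rw [Function.iterate_succ_apply]
  cases j with
  | zero => rfl
  | succ j => exact iter_const j 0

lemma iter_y (j : ℕ) : along^[j + 1] .y = .const 0 := by
  rw [Function.iterate_succ_apply]
  cases j with
  | zero => rfl
  | succ j => exact iter_const j 0

lemma Eser_add (f g : NExpr) : Eser K w (.add f g) = Eser K w f + Eser K w g := by
  ext n
  simp only [Eser, coeff_mk, map_add, iter_add]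
  rw [← smul_add]; rfl

lemma Eser_const (q : ℚ) : Eser K w (.const q) = PowerSeries.C (algebraMap ℚ R q) := by
  ext n
  rw [coeff_C]
  cases n with
  | zero => rw [coeff_zero_Eser]; rfl
  | succ n =>
    rw [Eser, coeff_mk, iter_const, if_neg (by omega)]
    simp [Calculus.eval]

lemma Eser_x : Eser K w .x = PowerSeries.C K.X := by
  ext n
  rw [coeff_C]
  cases n with
  | zero => rw [coeff_zero_Eser]; rfl
  | succ n =>
    rw [Eser, coeff_mk, iter_x, if_neg (by omega)]
    simp [Calculus.eval]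

lemma Eser_y : Eser K w .y = PowerSeries.C K.Y := by
  ext n
  rw [coeff_C]
  cases n with
  | zero => rw [coeff_zero_Eser]; rfl
  | succ n =>
    rw [Eser, coeff_mk, iter_y, if_neg (by omega)]
    simp [Calculus.eval]

lemma Eser_dx (f : NExpr) : Eser K w (.dx f) = cwD K.Dx (Eser K w f) := by
  ext n
  rw [coeff_cwD, Eser, Eser, coeff_mk, coeff_mk, iter_dx, Derivation.map_smul]; rfl

lemma Eser_dy (f : NExpr) : Eser K w (.dy f) = cwD K.Dy (Eser K w f) := by
  ext n
  rw [coeff_cwD, Eser, Eser, coeff_mk, coeff_mk, iter_dy, Derivation.map_smul]; rfl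

lemma Eser_ix (f : NExpr) : Eser K w (.ix f) = cwL K.J (Eser K w f) := by
  ext n
  rw [coeff_cwL, Eser, Eser, coeff_mk, coeff_mk, iter_ix, map_smul]; rfl

lemma Eser_mul_coeff (n : ℕ) : ∀ f g : NExpr,
    coeff n (Eser K w (.mul f g)) = coeff n (Eser K w f * Eser K w g) := by
  induction n with
  | zero =>
    intro f g
    rw [coeff_zero_Eser, coeff_zero_eq_constantCoeff, map_mul, ← coeff_zero_eq_constantCoeff,
      coeff_zero_Eser, coeff_zero_Eser]
    rfl
  | succ n ih =>
    intro f g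
    have hc : coeff (n + 1) (Eser K w (.mul f g)) * ((n : R) + 1) =
        coeff (n + 1) (Eser K w f * Eser K w g) * ((n : R) + 1) := by
      rw [← coeff_ds, ← coeff_ds, ds_Eser, Derivation.leibniz, ds_Eser, ds_Eser]
      change coeff n (Eser K w (.add (.mul (along f) g) (.mul f (along g)))) = _
      rw [Eser_add, map_add, ih, ih, ← map_add, smul_eq_mul, smul_eq_mul]
      congr 1
      ring
    have hi : ((n : R) + 1) * algebraMap ℚ R ((n : ℚ) + 1)⁻¹ = 1 := by
      have h : ((n : R) + 1) = algebraMap ℚ R ((n : ℚ) + 1) := by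
        rw [map_add, map_natCast, map_one]
      rw [h, ← map_mul, mul_inv_cancel₀ (by positivity), map_one]
    calc coeff (n + 1) (Eser K w (.mul f g))
        = coeff (n + 1) (Eser K w (.mul f g)) * ((n : R) + 1) * algebraMap ℚ R ((n : ℚ) + 1)⁻¹ := by
          rw [mul_assoc, hi, mul_one]
      _ = coeff (n + 1) (Eser K w f * Eser K w g) := by rw [hc, mul_assoc, hi, mul_one]

lemma Eser_mul (f g : NExpr) : Eser K w (.mul f g) = Eser K w f * Eser K w g := by
  ext n
  exact Eser_mul_coeff K w n f g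

/-- The Taylor series of an expression is its value on the formal solution. -/
lemma Eser_eq_eval (f : NExpr) : Eser K w f = (timeCalc K).eval (Eser K w .w) f := by
  induction f with
  | w => rfl
  | x => exact Eser_x K w
  | y => exact Eser_y K w
  | const q =>
    rw [Eser_const]
    exact (PowerSeries.algebraMap_apply (R := ℚ) (A := R) (r := q)).symm
  | add f g hf hg => rw [Eser_add, hf, hg]; rfl
  | mul f g hf hg => rw [Eser_mul, hf, hg]; rfl
  | dx f hf => rw [Eser_dx, hf]; rfl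
  | dy f hf => rw [Eser_dy, hf]; rfl
  | ix f hf => rw [Eser_ix, hf]; rfl

lemma eval_frechet_mem (hw : w ∈ K.N) (g : NExpr) (hg : K.eval w g ∈ K.N) (f : NExpr) :
    K.eval w (NExpr.frechet f g) ∈ K.N := by
  have h0 : K.eval w (.const 0) ∈ K.N := by
    change algebraMap ℚ R 0 ∈ K.N
    rw [map_zero]; exact K.N.zero_mem
  induction f with
  | w => exact hg
  | x => exact h0
  | y => exact h0
  | const q => exact h0
  | add f₁ f₂ h₁ h₂ => exact K.N.add_mem h₁ h₂
  | mul f₁ f₂ h₁ h₂ => exact K.N.add_mem (K.N.mul_mem_right _ h₁) (K.N.mul_mem_left _ h₂)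
  | dx f h => exact K.Dx_mem _ h
  | dy f h => exact K.Dy_mem _ h
  | ix f h => exact K.J_mem _ h

lemma eval_V_mem (hw : w ∈ K.N) : K.eval w NExpr.V ∈ K.N := by
  refine K.N.add_mem (K.N.add_mem ?_ ?_) ?_
  · exact K.N.mul_mem_left _ (K.N.mul_mem_right _ (K.Dx_mem _ hw))
  · exact K.N.mul_mem_left _ (K.N.mul_mem_right _ (K.Dx_mem _ hw))
  · exact K.N.mul_mem_left _ (K.J_mem _ (K.Dy_mem _ (K.Dy_mem _ hw)))

lemma Eser_w_mem (hw : w ∈ K.N) : Eser K w .w ∈ coeffIdeal K.N := by
  intro n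
  rw [Eser, coeff_mk, Algebra.smul_def]
  refine K.N.mul_mem_left _ ?_
  cases n with
  | zero => exact hw
  | succ n =>
    rw [Function.iterate_succ_apply']
    exact eval_frechet_mem K w hw _ (eval_V_mem K w hw) _

lemma isFlow_time (hw : w ∈ K.N) : IsFlow (timeCalc K) ds (Eser K w .w) where
  dx f := (cwD_ds K.Dx f).symm
  dy f := (cwD_ds K.Dy f).symm
  J f := by
    ext n
    have h : ∀ t : R, t * ((n : R) + 1) = ((n : ℚ) + 1) • t := by
      intro t
      rw [Algebra.smul_def, map_add, map_natCast, map_one, mul_comm]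
    change coeff n (ds (cwL K.J f)) = coeff n (cwL K.J (ds f))
    rw [coeff_ds, coeff_cwL, coeff_cwL, coeff_ds, h, h, map_smul]
  X := ds_C _
  Y := ds_C _
  N _ hf := ds_mem hf
  hw := Eser_w_mem K w hw
  flow := by
    rw [ds_Eser]
    change Eser K w NExpr.V = _
    rw [Eser_eq_eval]
    simp only [NExpr.V, Calculus.eval, map_ofNat, map_neg]

end ext


/-! ### A concrete calculus

Formal series `∑_k P_k(x,y) e^{kx}` with polynomial coefficients; the ideal `N` consists of the
series without the term `k = 0`. It shows that the axioms of `Calculus` are satisfied by a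
calculus in which `w` is generic. -/

section model

open Polynomial in
/-- `∂_y` on `ℚ[y][x]`. -/
noncomputable def pdy : Derivation ℚ ℚ[X][X] ℚ[X][X] :=
  (PolynomialModule.equivPolynomialSelf (R := ℚ[X])).compDer
    ((Polynomial.derivative' (R := ℚ) : Derivation ℚ ℚ[X] ℚ[X]).mapCoeffs)

open Polynomial in
/-- `∂_x` on `ℚ[y][x]`. -/
noncomputable def pdx : Derivation ℚ ℚ[X][X] ℚ[X][X] :=
  (Polynomial.derivative' (R := ℚ[X])).restrictScalars ℚ


/-- The ring `ℚ[y][x]`. -/
abbrev Bxy : Type := Polynomial (Polynomial ℚ)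

lemma coeff_pdy (p : Bxy) (i : ℕ) : (pdy p).coeff i = Polynomial.derivative (p.coeff i) := rfl

lemma coeff_pdx (p : Bxy) (i : ℕ) : (pdx p).coeff i = p.coeff (i + 1) * (i + 1) := by
  change (Polynomial.derivative p).coeff i = _
  rw [Polynomial.coeff_derivative]

lemma pdx_pdy (p : Bxy) : pdx (pdy p) = pdy (pdx p) := by
  ext1 i
  rw [coeff_pdx, coeff_pdy, coeff_pdy, coeff_pdx, Polynomial.derivative_mul]
  simp

lemma pdx_smul (a : Polynomial ℚ) (p : Bxy) : pdx (a • p) = a • pdx p := by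
  change Polynomial.derivative (a • p) = a • Polynomial.derivative p
  exact Polynomial.derivative_smul a p

lemma pdx_X_pow (n : ℕ) : pdx (Polynomial.X ^ (n + 1) : Bxy) = (n + 1 : Bxy) * Polynomial.X ^ n := by
  change Polynomial.derivative _ = _
  rw [Polynomial.derivative_X_pow]
  simp

/-- Inverse of `∂_x + k` on the powers of `x`. -/
noncomputable def eN (k : ℕ) : ℕ → Bxy
  | 0 => Polynomial.C (Polynomial.C (k : ℚ)⁻¹)
  | n + 1 => Polynomial.C (Polynomial.C (k : ℚ)⁻¹) *
      (Polynomial.X ^ (n + 1) - (n + 1 : Bxy) * eN k n)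

lemma k_inv (k : ℕ) (hk : 1 ≤ k) : (k : Bxy) * Polynomial.C (Polynomial.C (k : ℚ)⁻¹) = 1 := by
  have hk' : (k : ℚ) ≠ 0 := by positivity
  have : (k : Bxy) = Polynomial.C (Polynomial.C (k : ℚ)) := by simp
  rw [this, ← Polynomial.C_mul, ← Polynomial.C_mul, mul_inv_cancel₀ hk']; simp

lemma k_eN (k n : ℕ) (hk : 1 ≤ k) :
    (k : Bxy) * eN k (n + 1) = Polynomial.X ^ (n + 1) - (n + 1 : Bxy) * eN k n := by
  rw [eN, ← mul_assoc, k_inv k hk, one_mul]

lemma k_eN_zero (k : ℕ) (hk : 1 ≤ k) : (k : Bxy) * eN k 0 = 1 := k_inv k hk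

lemma natCast_cancel (k : ℕ) (hk : 1 ≤ k) {a b : Bxy} (h : (k : Bxy) * a = k * b) : a = b := by
  have h2 := congrArg (fun t => Polynomial.C (Polynomial.C (k : ℚ)⁻¹) * t) h
  simp only [← mul_assoc, mul_comm (Polynomial.C (Polynomial.C (k : ℚ)⁻¹)) (k : Bxy),
    k_inv k hk, one_mul] at h2
  exact h2

lemma pdx_natCast_mul (k : ℕ) (p : Bxy) : pdx ((k : Bxy) * p) = k * pdx p := by
  rw [Derivation.leibniz, pdx.map_natCast, smul_zero, add_zero, smul_eq_mul]

lemma pdx_eN_zero (k : ℕ) : pdx (eN k 0) = 0 := by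
  change Polynomial.derivative _ = _
  rw [eN, Polynomial.derivative_C]

lemma pdx_eN (k : ℕ) (hk : 1 ≤ k) : ∀ n, pdx (eN k (n + 1)) = (n + 1 : Bxy) * eN k n := by
  intro n
  induction n with
  | zero =>
    apply natCast_cancel k hk
    rw [← pdx_natCast_mul, k_eN k 0 hk, map_sub, pdx_X_pow]
    have : (((0 : ℕ) : Bxy) + 1) * eN k 0 = eN k 0 := by simp
    rw [this, pdx_eN_zero, k_eN_zero k hk]
    simp
  | succ n ih =>
    apply natCast_cancel k hk
    rw [← pdx_natCast_mul, k_eN k (n + 1) hk, map_sub, pdx_X_pow]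
    have h1 : pdx ((((n + 1 : ℕ) : Bxy) + 1) * eN k (n + 1)) =
        (((n + 1 : ℕ) : Bxy) + 1) * pdx (eN k (n + 1)) := by
      have h0 := pdx_natCast_mul (n + 1 + 1) (eN k (n + 1))
      rwa [Nat.cast_add (n + 1) 1, Nat.cast_one] at h0
    rw [h1, ih]
    have h2 := k_eN k n hk
    linear_combination (-(((n + 1 : ℕ) : Bxy) + 1)) * h2

/-- `∂_x^{-1}` on the coefficient of `e^{kx}`. -/
noncomputable def Jk (k : ℕ) : Bxy →ₗ[Polynomial ℚ] Bxy :=
  (Polynomial.basisMonomials (Polynomial ℚ)).constr (Polynomial ℚ) (fun n =>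
    if k = 0 then Polynomial.C (Polynomial.C ((n : ℚ) + 1)⁻¹) * Polynomial.X ^ (n + 1)
    else eN k n)

lemma Jk_X_pow (k n : ℕ) : Jk k (Polynomial.X ^ n) =
    if k = 0 then Polynomial.C (Polynomial.C ((n : ℚ) + 1)⁻¹) * Polynomial.X ^ (n + 1)
    else eN k n := by
  have h := (Polynomial.basisMonomials (Polynomial ℚ)).constr_basis (Polynomial ℚ) (fun n =>
    if k = 0 then Polynomial.C (Polynomial.C ((n : ℚ) + 1)⁻¹) * Polynomial.X ^ (n + 1)
    else eN k n) n
  rw [Polynomial.coe_basisMonomials] at h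
  rw [← Polynomial.monomial_one_right_eq_X_pow]
  exact h

lemma pdx_Jk (k : ℕ) (p : Bxy) : pdx (Jk k p) + (k : Bxy) * Jk k p = p := by
  induction p using Polynomial.induction_on' with
  | add p q hp hq =>
    rw [map_add, map_add]
    linear_combination hp + hq
  | monomial n a =>
    have hm : (Polynomial.monomial n a : Bxy) = a • Polynomial.X ^ n := by
      rw [← Polynomial.monomial_one_right_eq_X_pow, Polynomial.smul_monomial]; simp
    rw [hm, map_smul, pdx_smul, mul_smul_comm, ← smul_add]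
    congr 1
    rw [Jk_X_pow]
    split_ifs with h
    · subst h
      rw [Derivation.leibniz, pdx_X_pow]
      have h1 : pdx (Polynomial.C (Polynomial.C ((n : ℚ) + 1)⁻¹)) = 0 := by
        change Polynomial.derivative _ = _
        rw [Polynomial.derivative_C]
      have h2 : ((n : Bxy) + 1) * Polynomial.C (Polynomial.C ((n : ℚ) + 1)⁻¹) = 1 := by
        have := k_inv (n + 1) (by omega)
        simpa using this
      rw [h1, smul_zero, add_zero, smul_eq_mul]
      simp only [Nat.cast_zero, zero_mul, add_zero]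
      linear_combination Polynomial.X ^ n * h2
    · have hk : 1 ≤ k := by omega
      cases n with
      | zero => rw [pdx_eN_zero, k_eN_zero k hk]; simp
      | succ n => rw [pdx_eN k hk, k_eN k n hk]; ring

lemma Jk_pdx (k : ℕ) (hk : 1 ≤ k) (p : Bxy) : Jk k (pdx p + (k : Bxy) * p) = p := by
  induction p using Polynomial.induction_on' with
  | add p q hp hq =>
    have : pdx (p + q) + (k : Bxy) * (p + q) = (pdx p + (k : Bxy) * p) + (pdx q + (k : Bxy) * q) := by
      rw [map_add]; ring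
    rw [this, map_add, hp, hq]
  | monomial n a =>
    have hm : (Polynomial.monomial n a : Bxy) = a • Polynomial.X ^ n := by
      rw [← Polynomial.monomial_one_right_eq_X_pow, Polynomial.smul_monomial]; simp
    have hk' : ∀ (j : ℕ) (q : Bxy), Jk k ((j : Bxy) * q) = j * Jk k q := by
      intro j q
      have e : ∀ r : Bxy, (j : Bxy) * r = (j : Polynomial ℚ) • r := by
        intro r
        rw [Algebra.smul_def]; simp
      rw [e, e, map_smul]
    rw [hm, pdx_smul, mul_smul_comm, ← smul_add, map_smul]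
    congr 1
    rw [map_add, hk']
    cases n with
    | zero =>
      have : pdx (Polynomial.X ^ 0 : Bxy) = 0 := by
        rw [pow_zero]; exact pdx.map_one_eq_zero
      rw [this, map_zero, zero_add, Jk_X_pow, if_neg (by omega), k_eN_zero k hk, pow_zero]
    | succ n =>
      have h1 : Jk k (((n : Bxy) + 1) * Polynomial.X ^ n) = ((n : Bxy) + 1) * Jk k (Polynomial.X ^ n) := by
        have := hk' (n + 1) (Polynomial.X ^ n)
        simpa using this
      rw [pdx_X_pow, h1, Jk_X_pow, Jk_X_pow, if_neg (by omega), if_neg (by omega), k_eN k n hk]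
      ring

/-- The concrete calculus of formal series `∑_k P_k(x,y) e^{kx}`. -/
noncomputable def expCalculus : Calculus Bxy⟦X⟧ where
  Dx := cwD pdx + (X : Bxy⟦X⟧) • ds
  Dy := cwD pdy
  Dx_Dy := by
    intro f
    ext1 n
    simp only [Derivation.add_apply, Derivation.smul_apply, smul_eq_mul, map_add, coeff_cwD,
      pdx_pdy]
    cases n with
    | zero => simp
    | succ n =>
      rw [coeff_succ_X_mul, coeff_succ_X_mul, coeff_ds, coeff_ds, coeff_cwD]
      have h := pdy.leibniz (coeff (n + 1) f) ((n : Bxy) + 1)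
      have h2 : pdy ((n : Bxy) + 1) = 0 := by
        rw [map_add, pdy.map_natCast, pdy.map_one_eq_zero, add_zero]
      rw [h, h2, smul_zero, zero_add, smul_eq_mul]
      ring
  X := PowerSeries.C Polynomial.X
  Y := PowerSeries.C (Polynomial.C Polynomial.X)
  Dx_X := by
    rw [Derivation.add_apply, Derivation.smul_apply, ds_C, smul_zero, add_zero, cwD_C]
    have : pdx (Polynomial.X : Bxy) = 1 := by
      change Polynomial.derivative _ = _
      exact Polynomial.derivative_X
    rw [this, map_one]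
  Dx_Y := by
    rw [Derivation.add_apply, Derivation.smul_apply, ds_C, smul_zero, add_zero, cwD_C]
    have : pdx (Polynomial.C Polynomial.X : Bxy) = 0 := by
      change Polynomial.derivative _ = _
      exact Polynomial.derivative_C
    rw [this, map_zero]
  Dy_X := by
    rw [cwD_C]
    have : pdy (Polynomial.X : Bxy) = 0 := by
      ext1 i
      rw [coeff_pdy, Polynomial.coeff_X]
      split_ifs <;> simp
    rw [this, map_zero]
  Dy_Y := by
    rw [cwD_C]
    have : pdy (Polynomial.C Polynomial.X : Bxy) = 1 := by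
      ext1 i
      rw [coeff_pdy, Polynomial.coeff_C, Polynomial.coeff_one]
      split_ifs <;> simp
    rw [this, map_one]
  J := 
    { toFun := fun f => PowerSeries.mk fun n => Jk n (coeff n f)
      map_add' := by
        intro f g
        ext1 n
        simp
      map_smul' := by
        intro c f
        ext1 n
        have e : ∀ r : Bxy, c • r = (Polynomial.C c) • r := by
          intro r
          rw [Algebra.smul_def, Algebra.smul_def]; rfl
        simp only [coeff_mk, RingHom.id_apply]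
        rw [PowerSeries.coeff_smul, PowerSeries.coeff_smul, e, map_smul, ← e, coeff_mk] }
  Dx_J := by
    intro f
    ext1 n
    simp only [LinearMap.coe_mk, AddHom.coe_mk, Derivation.add_apply, Derivation.smul_apply,
      smul_eq_mul, map_add, coeff_cwD, coeff_mk]
    cases n with
    | zero =>
      have := pdx_Jk 0 (coeff 0 f)
      simpa using this
    | succ n =>
      rw [coeff_succ_X_mul, coeff_ds, coeff_mk]
      have := pdx_Jk (n + 1) (coeff (n + 1) f)
      push_cast at this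
      rw [mul_comm (Jk (n + 1) _)]
      exact this
  J_mono := by
    intro a b
    simp only [LinearMap.coe_mk, AddHom.coe_mk]
    have e0 : ∀ c : ℕ, (PowerSeries.C (Polynomial.X : Bxy)) ^ c *
        (PowerSeries.C (Polynomial.C Polynomial.X : Bxy)) ^ b =
        PowerSeries.C (Polynomial.X ^ c * (Polynomial.C Polynomial.X) ^ b : Bxy) := by
      intro c
      rw [map_mul, map_pow, map_pow]
    rw [e0, e0]
    ext1 n
    rw [coeff_mk, PowerSeries.coeff_smul, coeff_C, coeff_C]
    split_ifs with h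
    · subst h
      have e : (Polynomial.X ^ a * (Polynomial.C Polynomial.X) ^ b : Bxy) =
          (Polynomial.X ^ b : Polynomial ℚ) • Polynomial.X ^ a := by
        rw [Polynomial.smul_eq_C_mul, Polynomial.C_pow]; ring
      rw [e, map_smul, Jk_X_pow, if_pos rfl, Polynomial.smul_eq_C_mul, Algebra.smul_def,
        Polynomial.C_pow]
      have e2 : algebraMap ℚ Bxy ((a : ℚ) + 1)⁻¹ = Polynomial.C (Polynomial.C ((a : ℚ) + 1)⁻¹) := rfl
      rw [e2]; ring
    · rw [map_zero, smul_zero]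
  N := RingHom.ker (constantCoeff (R := Bxy))
  Dx_mem := by
    intro f hf
    rw [RingHom.mem_ker, ← coeff_zero_eq_constantCoeff] at hf ⊢
    simp only [Derivation.add_apply, Derivation.smul_apply, smul_eq_mul, map_add]
    rw [coeff_cwD, hf, coeff_zero_X_mul, map_zero, add_zero]
  Dy_mem := by
    intro f hf
    rw [RingHom.mem_ker, ← coeff_zero_eq_constantCoeff] at hf ⊢
    rw [coeff_cwD, hf, map_zero]
  J_mem := by
    intro f hf
    rw [RingHom.mem_ker, ← coeff_zero_eq_constantCoeff] at hf ⊢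
    simp only [LinearMap.coe_mk, AddHom.coe_mk]
    rw [coeff_mk, hf, map_zero]
  J_Dx := by
    intro f hf
    rw [RingHom.mem_ker, ← coeff_zero_eq_constantCoeff] at hf
    ext1 n
    simp only [LinearMap.coe_mk, AddHom.coe_mk, Derivation.add_apply, Derivation.smul_apply,
      smul_eq_mul, map_add, coeff_cwD, coeff_mk]
    cases n with
    | zero => simp [hf]
    | succ n =>
      rw [coeff_succ_X_mul, coeff_ds, ← map_add]
      have := Jk_pdx (n + 1) (by omega) (coeff (n + 1) f)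
      push_cast at this
      rw [mul_comm (coeff (n + 1) f)]
      exact this

end model

section final

variable {R : Type u} [CommRing R] [Algebra ℚ R]

lemma eval_comm (K : Calculus R) (w : R) (f : NExpr) :
    (timeCalc K).eval (Eser K w .w) (NExpr.comm f) =
      Lop (timeCalc K) ds (Eser K w .w) ((timeCalc K).eval (Eser K w .w) f) := by
  have h1 : (timeCalc K).eval (Eser K w .w) (NExpr.frechet f NExpr.V) =
      ds ((timeCalc K).eval (Eser K w .w) f) := by
    rw [← Eser_eq_eval, ← Eser_eq_eval, ds_Eser]; rfl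
  rw [Lop_apply, NExpr.comm]
  change (timeCalc K).eval (Eser K w .w) (NExpr.frechet NExpr.V f)
    + algebraMap ℚ R⟦X⟧ (-1) * (timeCalc K).eval (Eser K w .w) (NExpr.frechet f NExpr.V) = _
  rw [h1]
  simp only [NExpr.V, NExpr.frechet, Calculus.eval, map_ofNat, map_neg, map_zero, map_one]
  ring

lemma eval_comm_iter (K : Calculus R) (w : R) (k : ℕ) : ∀ f : NExpr,
    (timeCalc K).eval (Eser K w .w) (NExpr.comm^[k] f) =
      (Lop (timeCalc K) ds (Eser K w .w))^[k] ((timeCalc K).eval (Eser K w .w) f) := by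
  induction k with
  | zero => intro f; rfl
  | succ k ih =>
    intro f
    rw [Function.iterate_succ_apply', Function.iterate_succ_apply', eval_comm, ih]

lemma eval_yPow (K : Calculus R) (w : R) (n : ℕ) : K.eval w (NExpr.yPow n) = K.Y ^ n := by
  induction n with
  | zero => simp [NExpr.yPow, Calculus.eval]
  | succ n ih =>
    change K.Y * K.eval w (NExpr.yPow n) = _
    rw [ih]; ring

/-- For every positive integer `n`, `y^n` is a mastersymmetry of the dispersionless potential BKP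
equation: `V_{[,]}^{n+1} y^n = 0`. -/
theorem result : ∀ (R : Type u) [CommRing R] [Algebra ℚ R] (K : Calculus R) (w : R), w ∈ K.N →
    ∀ n : ℕ, 1 ≤ n → K.eval w (NExpr.comm^[n + 1] (NExpr.yPow n)) = 0 := by
  intro R _ _ K w hw n _
  rw [← coeff_zero_Eser, Eser_eq_eval, eval_comm_iter, eval_yPow, Lop_Y (isFlow_time K w hw),
    map_zero]

/-- The same in the concrete calculus of formal series `∑_k P_k(x,y) e^{kx}`, for every
`w = ∑_{k ≥ 1} P_k(x,y) e^{kx}`. -/
theorem result_exp (w : Bxy⟦X⟧) (hw : constantCoeff w = 0) (n : ℕ) (hn : 1 ≤ n) :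
    expCalculus.eval w (NExpr.comm^[n + 1] (NExpr.yPow n)) = 0 :=
  result _ expCalculus w (RingHom.mem_ker.mpr hw) n hn

end final

end Pool.Agent.Results.MP_0dcd56_mp.Mastersymmetries
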